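import Pool.Agent.Helper3.EL.Defs
import Pool.Agent.Helper28.TB.GFun

/-!
# Project EL, module EL-C: the van der Waerden bound for regular graphs, from `mpm`
-/

set_option autoImplicit false

namespace Pool.Agent.Helper3.EL

open Finset Pool.Agent.Lead.TB Pool.Agent.Lead.TB.Halves Pool.Agent.Helper84.TL

namespace VdwAux

theorem log_fact_ge {d : ℕ} (hd : 1 ≤ d) :
    (d : ℝ) * Real.log d - d ≤ Real.log (d.factorial : ℝ) := by
  have hm0 : (0 : ℝ) < d := by exact_mod_cast hd
  have hf : (0 : ℝ) < (d.factorial : ℝ) := by exact_mod_cast Nat.factorial_pos d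
  have h4 := Real.pow_div_factorial_le_exp (d : ℝ) hm0.le d
  have h5 := Real.log_le_log (by positivity) h4
  rw [Real.log_exp, Real.log_div (by positivity) hf.ne', Real.log_pow] at h5
  linarith

theorem log_fact_add {t q d j : ℕ} (hq : q ≤ j) (hd : 1 ≤ d) (h : t + q ≤ d) :
    Real.log ((t + q).factorial : ℝ) ≤ Real.log (t.factorial : ℝ) + j * Real.log d := by
  have h1 : (t + q).factorial ≤ t.factorial * d ^ j := by
    rw [← Nat.factorial_mul_ascFactorial]
    apply Nat.mul_le_mul_left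
    calc (t + 1).ascFactorial q ≤ (t + q) ^ q := Nat.ascFactorial_le_pow_add t q
      _ ≤ d ^ q := Nat.pow_le_pow_left h q
      _ ≤ d ^ j := Nat.pow_le_pow_right hd hq
  have h2 : ((t + q).factorial : ℝ) ≤ (t.factorial : ℝ) * (d : ℝ) ^ j := by exact_mod_cast h1
  have hd0 : (0 : ℝ) < d := by exact_mod_cast hd
  have ht : (0 : ℝ) < (t.factorial : ℝ) := by exact_mod_cast Nat.factorial_pos t
  have htq : (0 : ℝ) < ((t + q).factorial : ℝ) := by exact_mod_cast Nat.factorial_pos (t + q)
  have h3 := Real.log_le_log htq h2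
  rwa [Real.log_mul ht.ne' (by positivity), Real.log_pow] at h3

/-- The elementary estimate: `2 log d! - d log d - (j - 1) log t! - log (t + q)!` is at least
`d (log j - 1) - j (2 + 2 log d)`. -/
theorem main_est {d j t q : ℕ} (hj : 1 ≤ j) (hjd : j ≤ d) (hq : q < j) (h : t * j + q = d) :
    (d : ℝ) * (Real.log j - 1) - j * (2 + 2 * Real.log d) ≤
      2 * Real.log (d.factorial : ℝ) - d * Real.log d -
        (((j - 1 : ℕ) : ℝ) * Real.log (t.factorial : ℝ) + Real.log ((t + q).factorial : ℝ)) := by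
  have hd1 : 1 ≤ d := le_trans hj hjd
  have ht1 : 1 ≤ t := by
    rcases Nat.eq_zero_or_pos t with h0 | h0
    · rw [h0, zero_mul, zero_add] at h
      omega
    · exact h0
  have htd : t ≤ t * j := Nat.le_mul_of_pos_right t hj
  have hj0 : (0 : ℝ) < j := by exact_mod_cast hj
  have hd0 : (0 : ℝ) < d := by exact_mod_cast hd1
  have ht0 : (0 : ℝ) < t := by exact_mod_cast ht1
  have h' : (t : ℝ) * j + q = d := by exact_mod_cast h
  have hq0 : (0 : ℝ) ≤ q := Nat.cast_nonneg q
  have hqj : (q : ℝ) ≤ j := by exact_mod_cast hq.le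
  have hjd' : (j : ℝ) ≤ d := by exact_mod_cast hjd
  have a1 := log_fact_ge hd1
  have a2 := log_fact_add (t := t) (q := q) (d := d) (j := j) hq.le hd1 (by omega)
  have a3 := h28_log_fact ht1
  have hlogj : 0 ≤ Real.log j := Real.log_nonneg (by exact_mod_cast hj)
  have hlogt : 0 ≤ Real.log t := Real.log_nonneg (by exact_mod_cast ht1)
  have htj : (t : ℝ) * j ≤ d := by linarith
  -- log t ≤ log d - log j
  have a4 : Real.log t ≤ Real.log d - Real.log j := by
    have := Real.log_le_log (by positivity) htj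
    rw [Real.log_mul ht0.ne' hj0.ne'] at this
    linarith
  have a5 : ((j - 1 : ℕ) : ℝ) = j - 1 := by
    rw [Nat.cast_sub hj, Nat.cast_one]
  rw [a5]
  have ht' : (0 : ℝ) ≤ Real.log (t.factorial : ℝ) := by
    apply Real.log_nonneg
    exact_mod_cast Nat.one_le_iff_ne_zero.2 (Nat.factorial_ne_zero t)
  -- j log t! ≤ j + j log d / 2 + (d - q) (log t - 1)
  have a6 : (j : ℝ) * Real.log (t.factorial : ℝ) ≤
      j * (1 + Real.log t / 2) + (d - q) * (Real.log t - 1) := by
    have b := mul_le_mul_of_nonneg_left a3 hj0.le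
    have b2 : (j : ℝ) * (1 + Real.log t / 2 + t * Real.log t - t) =
        j * (1 + Real.log t / 2) + (t * j) * (Real.log t - 1) := by ring
    rw [b2] at b
    have b3 : (t : ℝ) * j = d - q := by linarith
    rwa [b3] at b
  have a7 : ((d : ℝ) - q) * (Real.log t - 1) ≤ (d : ℝ) * (Real.log d - Real.log j - 1) + j := by
    have b1 : (0 : ℝ) ≤ d - q := by linarith
    have b2 := mul_le_mul_of_nonneg_left a4 b1
    have b3 : (0 : ℝ) ≤ Real.log d - Real.log j := by linarith
    have b4 : 0 ≤ (q : ℝ) * (Real.log d - Real.log j) := mul_nonneg hq0 b3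
    nlinarith
  have a8 : (j : ℝ) * (1 + Real.log t / 2) ≤ j * (1 + Real.log d / 2) := by
    apply mul_le_mul_of_nonneg_left _ hj0.le
    linarith
  have a9 : 0 ≤ Real.log (d : ℝ) := by linarith
  have a10 : 0 ≤ (j : ℝ) * Real.log d := mul_nonneg hj0.le a9
  nlinarith

theorem tend (C₁ C₂ : ℝ) : Filter.Tendsto (fun k : ℕ => (C₁ + C₂ * k) / (2 : ℝ) ^ k)
    Filter.atTop (nhds 0) := by
  have h0 := tendsto_pow_const_div_const_pow_of_one_lt 0 (r := (2 : ℝ)) (by norm_num)
  have h1 := tendsto_pow_const_div_const_pow_of_one_lt 1 (r := (2 : ℝ)) (by norm_num)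
  have h2 := (h0.const_mul C₁).add (h1.const_mul C₂)
  rw [mul_zero, mul_zero, add_zero] at h2
  refine h2.congr fun k => ?_
  rw [pow_zero, pow_one]
  ring

end VdwAux

open VdwAux

/-- The van der Waerden bound, given `mpm` for the graph `G`. -/
theorem vdw_of {n j : ℕ} (hj : 1 ≤ j) (G : Gr n)
    (hmpm : ∀ t q k : ℕ, t * j + q = 2 ^ k → KK k ^ n ≤ ((pm G).card : ℝ) ^ (2 ^ k) *
      ((t.factorial : ℝ) ^ (j - 1) * ((t + q).factorial : ℝ)) ^ n) :
    Real.exp (n * (Real.log j - 1)) ≤ ((pm G).card : ℝ) := by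
  have hKK : ∀ k, 0 < KK k := by
    intro k
    unfold KK
    have : (0 : ℝ) < ((2 ^ k).factorial : ℝ) := by exact_mod_cast Nat.factorial_pos _
    positivity
  -- the number of perfect matchings is positive
  have hP : (0 : ℝ) < ((pm G).card : ℝ) := by
    have h1 := hmpm 0 1 0 (by norm_num)
    have h2 : 0 < KK 0 ^ n := pow_pos (hKK 0) n
    by_contra hc
    have h3 : ((pm G).card : ℝ) = 0 := le_antisymm (not_lt.1 hc) (Nat.cast_nonneg _)
    rw [h3, pow_zero, pow_one, zero_mul] at h1
    linarith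
  rw [← Real.le_log_iff_exp_le hP]
  -- it is enough to bound the difference
  have hn0 : (0 : ℝ) ≤ n := Nat.cast_nonneg n
  have key : ∀ k : ℕ, j ≤ 2 ^ k → (n : ℝ) * (Real.log j - 1) - Real.log ((pm G).card : ℝ) ≤
      ((n : ℝ) * j * 2 + (n : ℝ) * j * 2 * Real.log 2 * k) / (2 : ℝ) ^ k := by
    intro k hk
    set d : ℕ := 2 ^ k with hd
    have hd' : (d : ℝ) = (2 : ℝ) ^ k := by rw [hd]; push_cast; rfl
    have hd0 : (0 : ℝ) < (d : ℝ) := by rw [hd']; positivity
    have hlogd : Real.log (d : ℝ) = k * Real.log 2 := by rw [hd', Real.log_pow]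
    have h1 := hmpm (d / j) (d % j) k (Nat.div_add_mod' d j)
    have hmod : d % j < j := Nat.mod_lt d hj
    have hest := main_est hj hk hmod (Nat.div_add_mod' d j)
    have ht : (0 : ℝ) < ((d / j).factorial : ℝ) := by exact_mod_cast Nat.factorial_pos _
    have htq : (0 : ℝ) < ((d / j + d % j).factorial : ℝ) := by
      exact_mod_cast Nat.factorial_pos _
    have hdf : (0 : ℝ) < (d.factorial : ℝ) := by exact_mod_cast Nat.factorial_pos _
    have h2 := Real.log_le_log (pow_pos (hKK k) n) h1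
    have hlogKK : Real.log (KK k) = 2 * Real.log (d.factorial : ℝ) - d * Real.log d := by
      unfold KK
      rw [Real.log_div (by positivity) (by positivity), Real.log_pow, Real.log_pow, ← hd, ← hd']
      push_cast
      ring
    rw [Real.log_pow, Real.log_mul (by positivity) (by positivity), Real.log_pow, Real.log_pow,
      Real.log_mul (by positivity) htq.ne', Real.log_pow, hlogKK] at h2
    have h3 := mul_le_mul_of_nonneg_left hest hn0
    rw [← hd', le_div_iff₀ hd0]
    rw [hlogd] at h3 h2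
    nlinarith
  have hev : ∀ᶠ k : ℕ in Filter.atTop, (n : ℝ) * (Real.log j - 1) -
      Real.log ((pm G).card : ℝ) ≤
      ((n : ℝ) * j * 2 + (n : ℝ) * j * 2 * Real.log 2 * k) / (2 : ℝ) ^ k := by
    filter_upwards [Filter.eventually_ge_atTop j] with k hk
    exact key k (hk.trans (Nat.lt_two_pow_self).le)
  have := ge_of_tendsto (tend ((n : ℝ) * j * 2) ((n : ℝ) * j * 2 * Real.log 2)) hev
  linarith

end Pool.Agent.Helper3.EL
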